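import Pool.Agent.Lib_helper2.K4.Defs
import Pool.Agent.Lib_helper60.K4M.Delta

set_option autoImplicit false

/-!
The bridge between the sealed definitions of `MK4` and the library `K4M`.
-/

open scoped TensorProduct

namespace Pool.Agent.MK4

section Groups

variable {F : Type*} [Field F]

/-- the differential of the library -/
noncomputable def deS (F : Type*) [Field F] : B2 F →ₗ[ℚ] EA F := K4M.de F

/-- the differential of the library -/
noncomputable def dHS (F : Type*) [Field F] : HK F →ₗ[ℚ] EA F := K4M.dH F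

lemma deS_sy (x : F) : deS F (sy x) = io (lg (1 - x)) * io (lg x) := K4M.de_sy x

lemma dHS_hk (x : B2 F) (u : FT F) : dHS F (hk x u) = deS F x * io u :=
  K4M.dH_hk (F := F) x u

lemma lin2_ext {E E' : B2 F →ₗ[ℚ] EA F} (h : ∀ x : F, E (sy x) = E' (sy x)) : E = E' := by
  refine LinearMap.ext fun z => ?_
  obtain ⟨v, rfl⟩ := Submodule.Quotient.mk_surjective (Submodule.span ℚ (rel2 F)) z
  induction v using Finsupp.induction_linear with
  | zero => exact (map_zero E).trans (map_zero E').symm
  | add u v hu hv =>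
    have h1 := map_add E (Submodule.Quotient.mk (p := Submodule.span ℚ (rel2 F)) u)
      (Submodule.Quotient.mk (p := Submodule.span ℚ (rel2 F)) v)
    have h2 := map_add E' (Submodule.Quotient.mk (p := Submodule.span ℚ (rel2 F)) u)
      (Submodule.Quotient.mk (p := Submodule.span ℚ (rel2 F)) v)
    exact h1.trans ((congrArg₂ (· + ·) hu hv).trans h2.symm)
  | single x q =>
    have h1 := map_smul E q (sy x)
    have h2 := map_smul E' q (sy x)
    have e : (Submodule.Quotient.mk (p := Submodule.span ℚ (rel2 F)) (Finsupp.single x q) : B2 F)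
        = q • sy x := by
      have : Finsupp.single x q = q • Finsupp.single x (1 : ℚ) := by simp
      rw [this]
      rfl
    rw [e, h1, h2, h]

lemma lin3_ext {E E' : HK F →ₗ[ℚ] EA F}
    (h : ∀ (x : B2 F) (u : FT F), E (hk x u) = E' (hk x u)) : E = E' := by
  refine LinearMap.ext fun z => ?_
  obtain ⟨v, rfl⟩ := Submodule.Quotient.mk_surjective (Submodule.span ℚ (rel3 F)) z
  induction v with
  | zero => exact (map_zero E).trans (map_zero E').symm
  | add u v hu hv =>
    have h1 := map_add E (Submodule.Quotient.mk (p := Submodule.span ℚ (rel3 F)) u)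
      (Submodule.Quotient.mk (p := Submodule.span ℚ (rel3 F)) v)
    have h2 := map_add E' (Submodule.Quotient.mk (p := Submodule.span ℚ (rel3 F)) u)
      (Submodule.Quotient.mk (p := Submodule.span ℚ (rel3 F)) v)
    exact h1.trans ((congrArg₂ (· + ·) hu hv).trans h2.symm)
  | tmul x u => exact h x u

lemma deS_unique {D : B2 F →ₗ[ℚ] EA F} (h : ∀ x : F, D (sy x) = io (lg (1 - x)) * io (lg x)) :
    D = deS F := lin2_ext fun x => (h x).trans (deS_sy x).symm

lemma hasD_iff (x : B2 F) (y : EA F) : HasD x y ↔ deS F x = y := by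
  constructor
  · rintro ⟨D, hD, hx⟩
    rw [← deS_unique hD]
    exact hx
  · intro h
    exact ⟨deS F, deS_sy, h⟩

lemma hasD_deS (x : B2 F) : HasD x (deS F x) := (hasD_iff x _).mpr rfl

lemma dHS_unique {D : HK F →ₗ[ℚ] EA F} (h : ∀ x y u, HasD x y → D (hk x u) = y * io u) :
    D = dHS F := lin3_ext fun x u => (h x _ u (hasD_deS x)).trans (dHS_hk x u).symm

lemma closed_iff (z : HK F) : Closed z ↔ dHS F z = 0 := by
  constructor
  · rintro ⟨D, hD, hz⟩
    rw [← dHS_unique hD]
    exact hz
  · intro h
    refine ⟨dHS F, fun x y u hxy => ?_, h⟩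
    rw [dHS_hk, (hasD_iff x y).mp hxy]

end Groups

section bridge

variable {F : Type*} [Field F] [DecidableEq F] {W : WeierstrassCurve.Affine F}
  {A : AddSubgroup W.Point}

lemma dx_eq (a b : W.Point) : dx a b = K4M.dx a b := by
  rcases a with _ | ⟨x, y, h⟩ <;> rcases b with _ | ⟨x', y', h'⟩ <;> simp [dx, K4M.dx, K4M.xv]

lemma cr_eq (a b c d : A) : (cr a b c d : B2 F) = K4M.CA A a b c d := by
  unfold cr
  rw [dx_eq, dx_eq, dx_eq, dx_eq]
  rfl

lemma ps_eq (a : W.Point) : ps a = K4M.ps a := by
  rcases a with _ | ⟨x, y, h⟩ <;> rfl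

end bridge

end Pool.Agent.MK4
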