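import Pool.Agent.Lib_helper66.K4M.Closed11Curve

set_option autoImplicit false
set_option linter.unusedVariables false
set_option linter.unusedSimpArgs false

/-!
Order eleven, under the hypothesis that the four differences of the Siegel units are independent.
-/

namespace Pool.Agent.K4Closed

open Pool.Agent.K4Fin ExteriorAlgebra
open scoped TensorProduct

variable {B G H : Type*} [AddCommGroup B] [Module ℚ B]
  [AddCommGroup G] [Module ℚ G] [AddCommGroup H] [Module ℚ H]
  {t : ZMod 11 → ZMod 11 → B} {g : ZMod 11 → G} {m : B →ₗ[ℚ] G →ₗ[ℚ] H}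

/-- the four differences -/
def HH (g : ZMod 11 → G) : Fin 4 → G := ![g 2 - g 1, g 3 - g 1, g 4 - g 1, g 5 - g 1]

lemma det_shift (p q r k w : Fin 3 → ℚ) :
    Matrix.det ![p + w, q + w, k + w] + Matrix.det ![q + w, r + w, k + w] +
      Matrix.det ![r + w, p + w, k + w] =
    Matrix.det ![p, q, k] + Matrix.det ![q, r, k] + Matrix.det ![r, p, k] +
      (Matrix.det ![p, q, w] + Matrix.det ![q, r, w] + Matrix.det ![r, p, w]) := by
  have d : ∀ a b c : Fin 3 → ℚ, Matrix.det ![a, b, c] = a 0 * b 1 * c 2 - a 0 * b 2 * c 1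
      - a 1 * b 0 * c 2 + a 1 * b 2 * c 0 + a 2 * b 0 * c 1 - a 2 * b 1 * c 0 :=
    fun a b c => Matrix.det_fin_three (R := ℚ) ![a, b, c]
  simp only [d, Pi.add_apply]
  ring

lemma eqn' (D : Dat t g m) {de : B →ₗ[ℚ] ExteriorAlgebra ℚ G}
    (hde : ∀ a b, de (t a b) = ι ℚ (g a) * ι ℚ (g b) + ι ℚ (g b) * ι ℚ (g (a + b)) +
      ι ℚ (g (a + b)) * ι ℚ (g a)) (hind : LinearIndependent ℚ (HH g))
    (c : Fin 5 → Fin 5 → ℚ) (hc : ∀ i, ∑ k, c i k = 0)
    (h0 : del de (∑ i, ∑ k, c i k • (TT t i ⊗ₜ[ℚ] GG g k)) = 0) (x y z : Fin 5) :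
    ∑ i, ∑ k, c i k * (dd (jj i 0) (jj i 1) k x y z + dd (jj i 1) (jj i 2) k x y z +
      dd (jj i 2) (jj i 0) k x y z) = 0 := by
  obtain ⟨L, hL⟩ := exists_coord hind
  -- the five coordinate differences
  let ψ : Fin 5 → G →ₗ[ℚ] ℚ := fun x =>
    ![-((LinearMap.proj 0).comp L + (LinearMap.proj 1).comp L + (LinearMap.proj 2).comp L +
      (LinearMap.proj 3).comp L), (LinearMap.proj 0).comp L, (LinearMap.proj 1).comp L,
      (LinearMap.proj 2).comp L, (LinearMap.proj 3).comp L] x
  have hψ : ∀ u x : Fin 5, ψ x (GG g u) = kr u x + (ψ x (g 1) - kr 0 x) := by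
    intro u x
    have e : ∀ k : Fin 4, ∀ j : Fin 4, L (HH g k) j = if j = k then 1 else 0 := by
      intro k j
      rw [hL, Pi.single_apply]
    have e1 : ∀ j, L (g 2) j = L (g 1) j + if j = 0 then 1 else 0 := by
      intro j
      have := e 0 j
      simp only [HH, Matrix.cons_val_zero, map_sub, Pi.sub_apply] at this
      linarith
    have e2 : ∀ j, L (g 3) j = L (g 1) j + if j = 1 then 1 else 0 := by
      intro j
      have := e 1 j
      simp only [HH, Matrix.cons_val_one, Matrix.cons_val_zero, map_sub, Pi.sub_apply] at this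
      linarith
    have e3 : ∀ j, L (g 4) j = L (g 1) j + if j = 2 then 1 else 0 := by
      intro j
      have := e 2 j
      simp only [HH, Matrix.cons_val, map_sub, Pi.sub_apply] at this
      linarith
    have e4 : ∀ j, L (g 5) j = L (g 1) j + if j = 3 then 1 else 0 := by
      intro j
      have := e 3 j
      simp only [HH, Matrix.cons_val, map_sub, Pi.sub_apply] at this
      linarith
    fin_cases u <;> fin_cases x <;>
      simp [ψ, GG, kr, e1, e2, e3, e4] <;> ring
  let φ : G →ₗ[ℚ] (Fin 3 → ℚ) := LinearMap.pi ![ψ x, ψ y, ψ z]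
  set w : Fin 3 → ℚ := ![ψ x (g 1) - kr 0 x, ψ y (g 1) - kr 0 y, ψ z (g 1) - kr 0 z] with hw
  have hφ : ∀ u : Fin 5, φ (GG g u) = ![kr u x, kr u y, kr u z] + w := by
    intro u
    ext j
    fin_cases j
    · exact hψ u x
    · exact hψ u y
    · exact hψ u z
  have h1 := congrArg (dfun φ) h0
  simp only [map_sum, map_smul, del_tmul, de_TT D hde, add_mul, map_add, dfun_mul, hφ, map_zero,
    smul_eq_mul] at h1
  simp only [det_shift, dd_eq] at h1
  have h2 : ∀ i : Fin 5, ∑ k, c i k * (dd (jj i 0) (jj i 1) k x y z + dd (jj i 1) (jj i 2) k x y z +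
      dd (jj i 2) (jj i 0) k x y z +
      (Matrix.det ![![kr (jj i 0) x, kr (jj i 0) y, kr (jj i 0) z],
        ![kr (jj i 1) x, kr (jj i 1) y, kr (jj i 1) z], w] +
      Matrix.det ![![kr (jj i 1) x, kr (jj i 1) y, kr (jj i 1) z],
        ![kr (jj i 2) x, kr (jj i 2) y, kr (jj i 2) z], w] +
      Matrix.det ![![kr (jj i 2) x, kr (jj i 2) y, kr (jj i 2) z],
        ![kr (jj i 0) x, kr (jj i 0) y, kr (jj i 0) z], w])) =
      ∑ k, c i k * (dd (jj i 0) (jj i 1) k x y z + dd (jj i 1) (jj i 2) k x y z +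
      dd (jj i 2) (jj i 0) k x y z) := by
    intro i
    simp only [mul_add (c i _) (_ + _ + _) (_ + _ + _), Finset.sum_add_distrib, ← Finset.sum_mul,
      hc, zero_mul, add_zero]
  rw [← h1]
  exact Finset.sum_congr rfl fun i _ => (h2 i).symm

lemma GG_eq (g : ZMod 11 → G) (a : Fin 5 → ℚ) :
    ∑ k, a k • GG g k = (∑ k, a k) • g 1 + ∑ j : Fin 4, a j.succ • HH g j := by
  simp only [Fin.sum_univ_five, Fin.sum_univ_four, GG, HH, Matrix.cons_val_zero,
    Matrix.cons_val_one, Matrix.cons_val, Fin.succ_zero_eq_one, Fin.succ_one_eq_two]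
  simp only [show (Fin.succ 2 : Fin 5) = 3 from rfl, show (Fin.succ 3 : Fin 5) = 4 from rfl]
  module

/-- **Order eleven**: every closed element of the span of the `t(a,b) ⊗ g_c` is a rational
multiple of `ξ(1,3)`, when the differences of the `g_c` are independent. -/
theorem closed11' (D : Dat t g m) {de : B →ₗ[ℚ] ExteriorAlgebra ℚ G}
    (hde : ∀ a b, de (t a b) = ι ℚ (g a) * ι ℚ (g b) + ι ℚ (g b) * ι ℚ (g (a + b)) +
      ι ℚ (g (a + b)) * ι ℚ (g a)) (hind : LinearIndependent ℚ (HH g))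
    (z : B ⊗[ℚ] G)
    (hz : z ∈ Submodule.span ℚ {y | ∃ a b c : ZMod 11, y = t a b ⊗ₜ[ℚ] g c})
    (h0 : del de z = 0) : ∃ q : ℚ, TensorProduct.lift m z = q • xi0 t g m := by
  by_cases h1 : g 1 ∈ Submodule.span ℚ (Set.range (HH g))
  · obtain ⟨l, hl⟩ := (Submodule.mem_span_range_iff_exists_fun ℚ).mp h1
    obtain ⟨c, rfl⟩ := span_le D z hz
    let c' : Fin 5 → Fin 5 → ℚ := fun i => Fin.cons
      (-∑ j : Fin 4, (c i j.succ + (∑ k, c i k) * l j)) (fun j => c i j.succ + (∑ k, c i k) * l j)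
    have hc' : ∀ i, ∑ k, c' i k = 0 := by
      intro i
      rw [Fin.sum_univ_succ]
      simp [c']
    have hcc : ∀ i, ∑ k, c i k • GG g k = ∑ k, c' i k • GG g k := by
      intro i
      rw [GG_eq, GG_eq, hc', zero_smul, zero_add, ← hl, Finset.smul_sum, ← Finset.sum_add_distrib]
      refine Finset.sum_congr rfl fun j _ => ?_
      simp only [c', Fin.cons_succ]
      module
    have hzz : ∑ i, ∑ k, c i k • (TT t i ⊗ₜ[ℚ] GG g k) =
        ∑ i, ∑ k, c' i k • (TT t i ⊗ₜ[ℚ] GG g k) := by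
      refine Finset.sum_congr rfl fun i _ => ?_
      simp only [← TensorProduct.tmul_smul, ← TensorProduct.tmul_sum]
      rw [hcc]
    rw [hzz] at h0 ⊢
    have E := eqn' D hde hind c' hc' h0
    have key := rels D c'
      (by have := E 0 1 2; simp [Fin.sum_univ_five, dd, kr, jj] at this; linarith)
      (by have := E 0 1 3; simp [Fin.sum_univ_five, dd, kr, jj] at this; linarith)
      (by have := E 0 1 4; simp [Fin.sum_univ_five, dd, kr, jj] at this; linarith)
      (by have := E 0 2 3; simp [Fin.sum_univ_five, dd, kr, jj] at this; linarith)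
      (by have := E 0 2 4; simp [Fin.sum_univ_five, dd, kr, jj] at this; linarith)
      (by have := E 0 3 4; simp [Fin.sum_univ_five, dd, kr, jj] at this; linarith)
      (by have := E 1 2 3; simp [Fin.sum_univ_five, dd, kr, jj] at this; linarith)
      (by have := E 1 2 4; simp [Fin.sum_univ_five, dd, kr, jj] at this; linarith)
      (by have := E 1 3 4; simp [Fin.sum_univ_five, dd, kr, jj] at this; linarith)
      (by have := E 2 3 4; simp [Fin.sum_univ_five, dd, kr, jj] at this; linarith)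
    obtain ⟨q, hq⟩ := key
    refine ⟨q, ?_⟩
    rw [← hq]
    simp only [map_sum, map_smul, TensorProduct.lift.tmul]
  · refine closed11 D hde ?_ z hz h0
    rw [Fintype.linearIndependent_iff]
    intro a ha
    rw [GG_eq] at ha
    have hs : (∑ k, a k) = 0 := by
      by_contra hs
      apply h1
      have : g 1 = -(∑ k, a k)⁻¹ • ∑ j : Fin 4, a j.succ • HH g j := by
        have h2 : ∑ j : Fin 4, a j.succ • HH g j = -((∑ k, a k) • g 1) :=
          (neg_eq_of_add_eq_zero_right ha).symm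
        rw [h2, smul_neg, neg_smul, neg_neg, smul_smul, inv_mul_cancel₀ hs, one_smul]
      rw [this]
      refine Submodule.smul_mem _ _ (Submodule.sum_mem _ fun j _ => Submodule.smul_mem _ _ ?_)
      exact Submodule.subset_span ⟨j, rfl⟩
    rw [hs, zero_smul, zero_add] at ha
    have h3 := (Fintype.linearIndependent_iff.mp hind) (fun j => a j.succ) ha
    rw [Fin.sum_univ_succ] at hs
    simp only [h3, Finset.sum_const_zero, add_zero] at hs
    intro i
    refine Fin.cases hs (fun j => h3 j) i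

end Pool.Agent.K4Closed

namespace K4M

open Pool.Agent.K4Par Pool.Agent.K4Fin Pool.Agent.K4Closed
open scoped TensorProduct

variable {F : Type*} [Field F] [CharZero F] [DecidableEq F] {W : WeierstrassCurve.Affine F}
  {A : AddSubgroup W.Point} [Fintype A]

/-- **Order eleven.** -/
theorem closed_eleven' (hA : (Nat.card A).Coprime 6) {g : A → FT F} (hg : IsG4 A g) (P : A)
    (hP : 11 • P = 0)
    (hind : LinearIndependent ℚ ![g (2 • P) - g P, g (3 • P) - g P, g (4 • P) - g P,
      g (5 • P) - g P])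
    (z : B2 F ⊗[ℚ] FT F)
    (hz : z ∈ Submodule.span ℚ
      {y | ∃ a b c : ℤ, y = tA A (a • P) (b • P) ⊗ₜ[ℚ] g (c • P)})
    (h0 : dH F (Submodule.Quotient.mk z : HK F) = 0) :
    ∃ q : ℚ, (Submodule.Quotient.mk z : HK F) = q • xi (hkL F) (tA A) g P (3 • P) := by
  obtain ⟨f, hf⟩ := exists_hom 11 P hP
  have D := (dat_curve hA hg).comp f
  have f1 : f 1 = P := by
    have := hf 1
    rw [one_smul] at this
    rw [← this]; norm_cast
  have fn : ∀ n : ℕ, f (n : ZMod 11) = n • P := by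
    intro n
    have := hf n
    rw [← natCast_zsmul, ← this]; norm_cast
  have f2 : f 2 = 2 • P := fn 2
  have f3 : f 3 = 3 • P := fn 3
  have f4 : f 4 = 4 • P := fn 4
  have f5 : f 5 = 5 • P := fn 5
  have hind' : LinearIndependent ℚ (HH (fun a : ZMod 11 => g (f a))) := by
    have : HH (fun a : ZMod 11 => g (f a)) =
        ![g (2 • P) - g P, g (3 • P) - g P, g (4 • P) - g P, g (5 • P) - g P] := by
      unfold HH
      simp only [f1, f2, f3, f4, f5]
    rw [this]; exact hind
  have hz' : z ∈ Submodule.span ℚ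
      {y | ∃ a b c : ZMod 11, y = tA A (f a) (f b) ⊗ₜ[ℚ] g (f c)} := by
    refine Submodule.span_mono ?_ hz
    rintro y ⟨a, b, c, rfl⟩
    exact ⟨(a : ZMod 11), (b : ZMod 11), (c : ZMod 11), by rw [hf, hf, hf]⟩
  have hde : ∀ a b : ZMod 11, de F (tA A (f a) (f b)) =
      ExteriorAlgebra.ι ℚ (g (f a)) * ExteriorAlgebra.ι ℚ (g (f b)) +
      ExteriorAlgebra.ι ℚ (g (f b)) * ExteriorAlgebra.ι ℚ (g (f (a + b))) +
      ExteriorAlgebra.ι ℚ (g (f (a + b))) * ExteriorAlgebra.ι ℚ (g (f a)) := by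
    intro a b
    rw [map_add]
    exact final_de hA hg (f a) (f b)
  obtain ⟨q, hq⟩ := closed11' D (de := de F) hde hind' z hz' h0
  refine ⟨q, ?_⟩
  rw [← lift_hkL, hq]
  congr 1
  unfold xi0
  simp only [f1, f3]
  rfl

end K4M
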