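import Mathlib

set_option autoImplicit false

/-!
# The weight three polylogarithmic complex and the classes `ξ(a,b)`: definitions
-/

open scoped TensorProduct

namespace Pool.Agent.MK4

section Groups

variable (F : Type*) [Field F]

/-- The relations of `B₂(F)`: `{0} = {1} = 0` and the five term relation. -/
def rel2 : Set (F →₀ ℚ) :=
  {z | z = Finsupp.single 0 1 ∨ z = Finsupp.single 1 1 ∨
    ∃ x y : F, x ≠ 0 ∧ x ≠ 1 ∧ y ≠ 0 ∧ y ≠ 1 ∧ x ≠ y ∧
      z = Finsupp.single x 1 - Finsupp.single y 1 + Finsupp.single (y / x) 1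
        - Finsupp.single ((1 - x⁻¹) / (1 - y⁻¹)) 1 + Finsupp.single ((1 - x) / (1 - y)) 1}

/-- `B₂(F)`. -/
def B2 : Type _ := (F →₀ ℚ) ⧸ Submodule.span ℚ (rel2 F)

noncomputable instance : AddCommGroup (B2 F) := Submodule.Quotient.addCommGroup _

noncomputable instance : Module ℚ (B2 F) := Submodule.Quotient.module _

/-- `F^* ⊗ ℚ`, written additively. -/
def FT : Type _ := ℚ ⊗[ℤ] Additive Fˣ

noncomputable instance : AddCommGroup (FT F) := TensorProduct.addCommGroup

noncomputable instance : Module ℚ (FT F) := TensorProduct.leftModule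

variable {F}

/-- The symbol `{x}₂`. -/
noncomputable def sy (x : F) : B2 F :=
  Submodule.Quotient.mk (p := Submodule.span ℚ (rel2 F)) (Finsupp.single x 1)

open Classical in
/-- The class `[r]` of `r ≠ 0` in `F^* ⊗ ℚ` (and `0` for `r = 0`). -/
noncomputable def lg (r : F) : FT F :=
  if h : r = 0 then 0 else (1 : ℚ) ⊗ₜ[ℤ] Additive.ofMul (Units.mk0 r h)

variable (F)

/-- The elements `{f}₂ ⊗ f`. -/
def rel3 : Set (B2 F ⊗[ℚ] FT F) := {z | ∃ f : F, f ≠ 0 ∧ f ≠ 1 ∧ z = sy f ⊗ₜ[ℚ] lg f}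

/-- `H(F) = B₂(F) ⊗ F^*_ℚ / ⟨{f}₂ ⊗ f⟩`. -/
def HK : Type _ := (B2 F ⊗[ℚ] FT F) ⧸ Submodule.span ℚ (rel3 F)

noncomputable instance : AddCommGroup (HK F) := Submodule.Quotient.addCommGroup _

noncomputable instance : Module ℚ (HK F) := Submodule.Quotient.module _

variable {F}

/-- The class of `x ⊗ u` in `H(F)`. -/
noncomputable def hk (x : B2 F) (u : FT F) : HK F :=
  Submodule.Quotient.mk (p := Submodule.span ℚ (rel3 F)) (x ⊗ₜ[ℚ] u)

/-- The exterior algebra of `F^*_ℚ`. -/
def EA (F : Type*) [Field F] : Type _ := ExteriorAlgebra ℚ (FT F)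

noncomputable instance : Ring (EA F) := CliffordAlgebra.instRing _

noncomputable instance : Algebra ℚ (EA F) := CliffordAlgebra.instAlgebra _

/-- The class of `u` in the exterior algebra. -/
noncomputable def io (u : FT F) : EA F := ExteriorAlgebra.ι ℚ u

/-- `x` in `B₂(F)` has differential `y` in `Λ² F^*_ℚ`, for the differential
`{x}₂ ↦ (1-x) ∧ x`. -/
def HasD (x : B2 F) (y : EA F) : Prop :=
  ∃ D : B2 F →ₗ[ℚ] EA F, (∀ x : F, D (sy x) = io (lg (1 - x)) * io (lg x)) ∧ D x = y

/-- `z` in `H(F)` is closed, i.e. defines a class in `H²` of the weight three complex: the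
differential `x ⊗ u ↦ δ(x) ∧ u` vanishes on `z`. -/
def Closed (z : HK F) : Prop :=
  ∃ D : HK F →ₗ[ℚ] EA F, (∀ x y u, HasD x y → D (hk x u) = y * io u) ∧ D z = 0

/-- `g_a ∧ g_b + g_b ∧ g_{a+b} + g_{a+b} ∧ g_a`. -/
noncomputable def dt {A : Type*} [AddCommGroup A] (g : A → FT F) (a b : A) : EA F :=
  io (g a) * io (g b) + io (g b) * io (g (a + b)) + io (g (a + b)) * io (g a)

end Groups

section Points

variable {F : Type*} [Field F] [DecidableEq F] {W : WeierstrassCurve.Affine F}

/-- The difference `x_a - x_b` (`1`, resp. `-1`, if `a`, resp. `b`, is the origin). -/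
def dx : W.Point → W.Point → F
  | .zero, .zero => 0
  | .zero, .some _ _ _ => 1
  | .some _ _ _, .zero => -1
  | .some x _ _, .some x' _ _ => x - x'

/-- The cross ratio symbol of `x_a, x_b, x_c, x_d`. -/
noncomputable def cr {A : AddSubgroup W.Point} (a b c d : A) : B2 F :=
  sy (dx (a : W.Point) b * dx (c : W.Point) d / (dx (a : W.Point) c * dx (b : W.Point) d))

/-- `ψ₂ = 2y + a₁x + a₃`, the value `1` at the origin. -/
def ps : W.Point → F
  | .zero => 1
  | .some x y _ => 2 * y + W.a₁ * x + W.a₃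

end Points

section Abs

variable {A B : Type*} [AddCommGroup A] [AddCommGroup B]

/-- `g(a+b) + g(a-b) - 2g(a) - 2g(b)`. -/
def pg (g : A → B) (a b : A) : B := g (a + b) + g (a - b) - 2 • g a - 2 • g b

/-- `θ(a,b,c)`. -/
def th (t : A → A → B) (a b c : A) : B :=
  t (a - b) (b - c) + t (a - b) (b + c) + t (a + b) (-b - c) + t (-a - b) (b - c)

/-- `t` is alternating in `(a, b, -a-b)`, even, and `C(a,b,c,d)` is the coboundary of `θ`. -/
structure Tri (C : A → A → A → A → B) (t : A → A → B) : Prop where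
  swap : ∀ a b, t b a = - t a b
  rot : ∀ a b, t b (-a - b) = t a b
  even : ∀ a b, t (-a) (-b) = t a b
  tri : ∀ a b c d, C a b c d = th t b c d - th t a c d + th t a b d - th t a b c

/-- The relations of the Manin symbols for one sign. -/
structure Manin (ξ : A → A → B) : Prop where
  sym : ∀ a b, ξ b a = ξ a b
  par : ∀ a b, ξ a (-b) = - ξ a b
  tri : ∀ a b c, a + b + c = 0 → ξ a b + ξ b c + ξ c a = 0

end Abs

end Pool.Agent.MK4
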