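import Pool.Agent.Lib_helper2.K4.Defs

set_option autoImplicit false

/-!
# Residues at discrete valuations
-/

open scoped WithZero

namespace Pool.Agent.MK4

variable {F : Type*} [Field F]

/-- The residue field of a discrete valuation. -/
abbrev RF (v : Valuation F ℤᵐ⁰) : Type _ := IsLocalRing.ResidueField v.valuationSubring

open Classical in
/-- The symbol `{x̄}₂` of the residue class of `x` (zero if `x` is not integral at `v`). -/
noncomputable def sv (v : Valuation F ℤᵐ⁰) (x : F) : B2 (RF v) :=
  if h : x ∈ v.valuationSubring then sy (IsLocalRing.residue v.valuationSubring ⟨x, h⟩) else 0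

/-- The residue of `z` at `v` is zero: the residue is the linear map `H(F) → B₂(k_v)` with
`{x}₂ ⊗ u ↦ v(u) {x̄}₂`. -/
def NoRes (v : Valuation F ℤᵐ⁰) (z : HK F) : Prop :=
  ∃ R : HK F →ₗ[ℚ] B2 (RF v),
    (∀ x u : F, u ≠ 0 → R (hk (sy x) (lg u)) = ((WithZero.log (v u) : ℤ) : ℚ) • sv v x) ∧
      R z = 0

/-- The classes attached to the multiples of a point of prime order have no residues at discrete
valuations with infinite residue field. -/
def Unramified {A : Type*} [AddCommGroup A] (ξ : A → A → HK F) : Prop :=
  ∀ (p : ℕ) (P : A), p.Prime → p • P = 0 →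
    ∀ v : Valuation F ℤᵐ⁰, Infinite (RF v) → ∀ a b : ℤ, NoRes v (ξ (a • P) (b • P))

end Pool.Agent.MK4
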