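import Pool.Agent.Lib_helper2.K4.DefsL
import Pool.Agent.Lib_helper2.K4.DefsR

set_option autoImplicit false

/-!
# Elements built on the cuspidal units of `X₁(11)`

`X₁(11)` is the curve `y² + y = x³ - x²`.
-/

open scoped TensorProduct WithZero

namespace Pool.Agent.MK4

section Curve

variable {F : Type*} [Field F]

/-- The universal elliptic curve with the point `(0,0)` of order eleven. -/
def W11 (x y : F) : WeierstrassCurve.Affine F where
  a₁ := 1 - y * (x + y) / x
  a₂ := -(x * (x - 1) * (x + y))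
  a₃ := -(x * (x - 1) * (x + y))
  a₄ := 0
  a₆ := 0

/-- The function which vanishes at the five cusps which are not rational. -/
def hc (x y : F) : F := x ^ 3 - 5 * x ^ 2 - 3 * x * y + 2 * x + 2 * y + 1

end Curve

section Cross

variable {F : Type*} [Field F] [DecidableEq F] {W : WeierstrassCurve.Affine F}

/-- The cross ratio of `x_a, x_b, x_c, x_d`. -/
def crf (a b c d : W.Point) : F := dx a b * dx c d / (dx a c * dx b d)

end Cross

section Units

variable (k : Type*) {F : Type*} [Field k] [Field F] [Algebra k F]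

/-- The units of `k[x, y, 1/(x(x-1))]`, the ring of the functions without poles outside the five
rational cusps `x = ∞, 0, 1`. -/
def CU (x y f : F) : Prop :=
  f ≠ 0 ∧ f ∈ Algebra.adjoin k {x, y, (x * (x - 1))⁻¹} ∧
    f⁻¹ ∈ Algebra.adjoin k {x, y, (x * (x - 1))⁻¹}

/-- The cuspidal units of `X₁(11)`: units outside the five rational cusps and a power of `hc`. -/
def MU (x y f : F) : Prop := ∃ m : ℤ, CU k x y (f * hc x y ^ m)

/-- The span of the `{f}₂ ⊗ u`, where `f` and `1 - f` are cuspidal units, `u` is arbitrary. -/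
noncomputable def Cusp (x y : F) : Submodule ℚ (HK F) :=
  Submodule.span ℚ {z | ∃ f u : F, MU k x y f ∧ MU k x y (1 - f) ∧ z = hk (sy f) (lg u)}

/-- The span of the `{c}₂ ⊗ u`, `c` constant, `u` arbitrary. -/
noncomputable def Cst (F : Type*) [Field F] [Algebra k F] : Submodule ℚ (HK F) :=
  Submodule.span ℚ {z | ∃ (c : k) (u : F), z = hk (sy (algebraMap k F c)) (lg u)}

/-- The span of the `{c}₂ ⊗ κ`, `c` and `κ` constant. -/
noncomputable def Cst₀ (F : Type*) [Field F] [Algebra k F] : Submodule ℚ (HK F) :=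
  Submodule.span ℚ {z | ∃ c κ : k, z = hk (sy (algebraMap k F c)) (lg (algebraMap k F κ))}

/-- (C2): every closed element of `Cusp` is a multiple of `ξ` up to the `{c}₂ ⊗ u`. -/
def Complete (x y : F) (ξ : HK F) : Prop :=
  ∀ z ∈ Cusp k x y, Closed z → ∃ r : ℚ, z - r • ξ ∈ Cst k F

/-- (C3): if `k` is algebraically closed and `F = k(x,y)`, every closed element of `Cusp` without
residues at the places is a multiple of `ξ` up to the `{c}₂ ⊗ κ`. -/
def CompleteRes (x y : F) (ξ : HK F) : Prop :=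
  IsAlgClosed k → IntermediateField.adjoin k {x, y} = ⊤ → ∀ z ∈ Cusp k x y, Closed z →
    (∀ v : Valuation F ℤᵐ⁰, (∀ c : k, c ≠ 0 → v (algebraMap k F c) = 1) → NoRes v z) →
    ∃ r : ℚ, z - r • ξ ∈ Cst₀ k F

end Units

section Final

variable {F : Type*} [Field F]

/-- (C1): `f` and `1 - f` are cuspidal units if and only if `f` is a constant or a cross ratio of
four of the six points `x(aP)`, `0 ≤ a ≤ 5`. -/
def UnitEq (k : Type*) [Field k] [Algebra k F] [DecidableEq F] {W : WeierstrassCurve.Affine F}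
    (x y : F) (P : W.Point) : Prop :=
  ∀ f : F, (MU k x y f ∧ MU k x y (1 - f)) ↔
    (∃ c : k, c ≠ 0 ∧ c ≠ 1 ∧ f = algebraMap k F c) ∨
      ∃ a b c d : Fin 6, a ≠ b ∧ a ≠ c ∧ a ≠ d ∧ b ≠ c ∧ b ≠ d ∧ c ≠ d ∧
        f = crf ((a : ℕ) • P) ((b : ℕ) • P) ((c : ℕ) • P) ((d : ℕ) • P)

/-- (C4): over `ℚ` the cuspidal units are the units of `ℚ[x, y, 1/(x(x-1)hc)]`. -/
def RatUnits [CharZero F] (x y : F) : Prop :=
  ∀ f : F, MU ℚ x y f ↔
    f ≠ 0 ∧ f ∈ Algebra.adjoin ℚ {x, y, (x * (x - 1) * hc x y)⁻¹} ∧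
      f⁻¹ ∈ Algebra.adjoin ℚ {x, y, (x * (x - 1) * hc x y)⁻¹}

end Final

end Pool.Agent.MK4
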