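import Pool.Agent.Lib_helper2.K4.Defs

set_option autoImplicit false

/-!
# Isogenies, distribution relations, Hecke operators
-/

open scoped TensorProduct

namespace Pool.Agent.MK4

section Points

variable {F : Type*} [Field F] [DecidableEq F]

/-- The torsion points. -/
abbrev To (W : WeierstrassCurve.Affine F) : AddSubgroup W.Point := AddCommGroup.torsion W.Point

variable {W : WeierstrassCurve.Affine F}

/-- `g` are the Siegel units, `t` is the triangulation and `ξ(a,b) = t(a,b) ⊗ (g_b - g_a)`. -/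
structure Data (g : To W → FT F) (t : To W → To W → B2 F) (ξ : To W → To W → HK F) : Prop where
  siegel : ∀ a b : To W, a ≠ b → a ≠ -b → lg (dx (a : W.Point) b) = pg g a b
  tri : Tri cr t
  xi : ∀ a b : To W, ξ a b = hk (t a b) (g b - g a)

/-- The `x`-coordinate (`0` at the origin). -/
def X : W.Point → F
  | .zero => 0
  | .some x _ _ => x

/-- `φ` is an isogeny: its kernel is finite of order `d` and `x(φ(a)) = P(x(a)) / Q(x(a))` with
`P`, `Q` coprime polynomials of degrees `d` and less than `d`. -/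
def IsIsogeny {W' : WeierstrassCurve.Affine F} (φ : W.Point →+ W'.Point) : Prop :=
  Finite φ.ker ∧ ∃ P Q : Polynomial F, IsCoprime P Q ∧
    P.natDegree = Nat.card φ.ker ∧ Q.natDegree < Nat.card φ.ker ∧
    (∀ a, a ≠ 0 → φ a = 0 → Q.eval (X a) = 0) ∧
    ∀ a, φ a ≠ 0 → P.eval (X a) = X (φ a) * Q.eval (X a)

/-- `∑_{i,j ∈ ker φ} ξ(a+i,b+j) = (1 / |ker φ|) ξ'(φ(a),φ(b))` for every isogeny `φ : W → W'` and
the classes `ξ'` of `W'`. -/
def IsogRel (ξ : To W → To W → HK F) : Prop :=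
  ∀ (W' : WeierstrassCurve.Affine F) (φ : W.Point →+ W'.Point) (g' : To W' → FT F)
    (t' : To W' → To W' → B2 F) (ξ' : To W' → To W' → HK F),
    W'.Δ ≠ 0 → IsIsogeny φ → Data g' t' ξ' →
    ∀ (a b : To W) (a' b' : To W'), (a' : W'.Point) = φ a → (b' : W'.Point) = φ b →
      Nat.card φ.ker • ∑ᶠ (i : {i : To W // φ i = 0}) (j : {j : To W // φ j = 0}),
        ξ (a + i) (b + j) = ξ' a' b'

/-- The span of the `x ⊗ u` with `δ(x) = 0`. -/
noncomputable def Dec (F : Type*) [Field F] : Submodule ℚ (HK F) :=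
  Submodule.span ℚ {z | ∃ (x : B2 F) (u : FT F), HasD x 0 ∧ z = hk x u}

end Points

section Abs

variable {A B : Type*} [AddCommGroup A] [AddCommGroup B]

/-- `∑_{i,j ∈ A[k]} ξ(a+i,b+j) = k⁻² ξ(ka,kb)`. -/
def Dist1 (ξ : A → A → B) : Prop :=
  ∀ k : ℕ, 0 < k → ∀ a b : A,
    k ^ 2 • ∑ᶠ (i : {i : A // k • i = 0}) (j : {j : A // k • j = 0}), ξ (a + i) (b + j) =
      ξ (k • a) (k • b)

/-- `k ∑_{i ∈ A[k]} ξ(a,b+i) = ξ(a,kb)` modulo `N`. -/
def Dist2 (N : Set B) (ξ : A → A → B) : Prop :=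
  ∀ k : ℕ, 0 < k → ∀ a b : A,
    k • ∑ᶠ i : {i : A // k • i = 0}, ξ a (b + i) - ξ a (k • b) ∈ N

/-- Merel's matrices `(p,r,q,s)` of determinant `l`: `p > q ≥ 0`, `s > r ≥ 0`, `ps - qr = l`. -/
def Merel (l : ℕ) : Set (ℕ × ℕ × ℕ × ℕ) :=
  {M | M.2.2.1 < M.1 ∧ M.2.1 < M.2.2.2 ∧ M.1 * M.2.2.2 = M.2.2.1 * M.2.1 + l}

/-- `l ∑_C ∑_{c,c' ∈ C} ξ(a+c,b+c') = ∑_M ξ((a,b)M)` modulo `N`: `C` runs over the subgroups of
order `l`, `M` over Merel's matrices, `(a,b)M = (pa+rb,qa+sb)`. -/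
def Hecke (N : Set B) (ξ : A → A → B) : Prop :=
  ∀ l : ℕ, l.Prime → ∀ a b : A,
    l • ∑ᶠ (C : {C : AddSubgroup A // Nat.card C = l}) (c : C.1) (c' : C.1), ξ (a + c) (b + c') -
      ∑ᶠ M ∈ Merel l, ξ (M.1 • a + M.2.1 • b) (M.2.2.1 • a + M.2.2.2 • b) ∈ N

/-- `k ∑_{i ∈ A[k]} ξ(a,b+i) = ξ(a,kb)`. -/
def Dist2At (k : ℕ) (ξ : A → A → B) : Prop :=
  ∀ a b : A, k • ∑ᶠ i : {i : A // k • i = 0}, ξ a (b + i) = ξ a (k • b)

/-- `l ∑_C ∑_{c,c' ∈ C} ξ(a+c,b+c') = ∑_M ξ((a,b)M)`: `C` runs over the subgroups of order `l`, `M`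
over Merel's matrices. -/
def HeckeAt (l : ℕ) (ξ : A → A → B) : Prop :=
  ∀ a b : A,
    l • ∑ᶠ (C : {C : AddSubgroup A // Nat.card C = l}) (c : C.1) (c' : C.1), ξ (a + c) (b + c') =
      ∑ᶠ M ∈ Merel l, ξ (M.1 • a + M.2.1 • b) (M.2.2.1 • a + M.2.2.2 • b)

/-- The trace `∑_{u mod N prime to N} ξ(uaP, ubP)`. -/
def traceU (ξ : A → A → B) (N : ℕ) (P : A) (a b : ℤ) : B :=
  ∑ u ∈ (Finset.range N).filter (fun u => Nat.Coprime u N), ξ ((u * a : ℤ) • P) ((u * b : ℤ) • P)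

/-- At level `N` all traces are multiples of one class. -/
def OneLine [Module ℚ B] (ξ : A → A → B) (N : ℕ) : Prop :=
  ∀ P : A, N • P = 0 → ∃ h : B, ∀ a b : ℤ, ∃ q : ℚ, traceU ξ N P a b = q • h

end Abs

end Pool.Agent.MK4
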