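import Pool.Agent.Lib_helper2.K4.Defs

set_option autoImplicit false

/-!
# The statements at levels `11`, `17`, `19`
-/

open scoped TensorProduct

namespace Pool.Agent.MK4

section Points

variable {F : Type*} [Field F] [DecidableEq F] {W : WeierstrassCurve.Affine F}

/-- The Siegel units of a group of odd order: `g(2a) - 4 g(a) = [ψ₂(a)]`. -/
def Siegel {A : AddSubgroup W.Point} (g : A → FT F) : Prop :=
  ∀ a : A, g (a + a) - 4 • g a = lg (ps (a : W.Point))

/-- At level `11`, if the differences `g(kP) - g(P)` are independent, every closed element of the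
span of the `t(aP,bP) ⊗ g(cP)` is a multiple of `t(P,3P) ⊗ (g(3P) - g(P))`. -/
def Closed11 {A : AddSubgroup W.Point} (g : A → FT F) (t : A → A → B2 F) : Prop :=
  ∀ P : A, 11 • P = 0 →
    LinearIndependent ℚ ![g (2 • P) - g P, g (3 • P) - g P, g (4 • P) - g P, g (5 • P) - g P] →
    ∀ z ∈ Submodule.span ℚ
        {y : HK F | ∃ a b c : ℤ, y = hk (t (a • P) (b • P)) (g (c • P))},
      Closed z → ∃ q : ℚ, z = q • hk (t P (3 • P)) (g (3 • P) - g P)

end Points

section Abs

variable {A B : Type*} [AddCommGroup A] [AddCommGroup B]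

/-- The residue `0 < u < p` of a class. -/
def vl {p : ℕ} {U : Subgroup (ZMod p)ˣ} (u : U) : ℕ := ((u : (ZMod p)ˣ) : ZMod p).val

/-- For every prime `p ≥ 5` and every group `U` of classes modulo `p` which contains `-1` the traces
`∑_{u ∈ U} ξ(uaP,ubP)`, `pP = 0`, span a space of dimension at most
`1 + (p-1)(p-11-3e₂-4e₃)/(12|U|)`, the genus of the modular curve `X_U(p)` (`e₂`, `e₃`: numbers of
elements of order four, three in `U`). -/
def GenusBound [Module ℚ B] (ξ : A → A → B) : Prop :=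
  ∀ p : ℕ, p.Prime → 5 ≤ p → ∀ U : Subgroup (ZMod p)ˣ, -1 ∈ U → ∀ P : A, p • P = 0 →
    (Module.finrank ℚ (Submodule.span ℚ {y : B | ∃ a b : ℤ, y =
        ∑ᶠ u : U, ξ ((vl u * a : ℤ) • P) ((vl u * b : ℤ) • P)}) : ℚ) ≤
      1 + ((p : ℚ) - 1) * (p - 11 - 3 * Nat.card {u : U // orderOf u = 4}
        - 4 * Nat.card {u : U // orderOf u = 3}) / (12 * Nat.card U)

/-- `q(a,b)` for `a, b` in `1, …, 5`. -/
def tab (a b : ℕ) : ℤ :=
  if (a, b) ∈ [(1, 3), (3, 1), (1, 4), (4, 1), (4, 5), (5, 4)] then 1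
  else if (a, b) ∈ [(2, 3), (3, 2), (2, 5), (5, 2)] then -1 else 0

/-- `q(a,b)` modulo `11`, odd in `a` and in `b`. -/
def q11 (a b : ZMod 11) : ℤ :=
  (if a.val ≤ 5 then 1 else -1) * (if b.val ≤ 5 then 1 else -1) *
    tab (min a.val (11 - a.val)) (min b.val (11 - b.val))

/-- At level `11` all `ξ(aP, bP)` are `q(a,b) ξ(P, 3P)`. -/
def Level11 (ξ : A → A → B) : Prop :=
  ∀ P : A, 11 • P = 0 → ∀ a b : ℤ, ξ (a • P) (b • P) = q11 a b • ξ P (3 • P)

/-- The trace `∑_{u mod p} ξ(uP, ucP)`. -/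
def trace (ξ : A → A → B) (p : ℕ) (P : A) (c : ℤ) : B :=
  ∑ u ∈ Finset.range p, ξ ((u : ℤ) • P) ((u * c : ℤ) • P)

/-- At level `p` the trace at `c` is the trace at `c₀`, its opposite or zero, as `c` mod `p` is in
`S`, in `-S` or in neither. -/
def LevelP (ξ : A → A → B) (p : ℕ) (S : List (ZMod p)) (c₀ : ℤ) : Prop :=
  ∀ P : A, p • P = 0 → ∀ c : ℤ,
    trace ξ p P c =
      (if (c : ZMod p) ∈ S then 1 else if -(c : ZMod p) ∈ S then -1 else 0 : ℤ) • trace ξ p P c₀

end Abs

section Points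

variable {F : Type*} [Field F] [DecidableEq F] {W : WeierstrassCurve.Affine F}

/-- At level `p`, if the differences `g(kP) - g(P)` are independent, every closed element of the
span of the traces `∑_{u mod p} t(uaP,ubP) ⊗ g(ucP)` is a multiple of the trace of the classes
`ξ(uP, u c₀ P)`. -/
def ClosedTr {A : AddSubgroup W.Point} (g : A → FT F) (t : A → A → B2 F) (p : ℕ) (c₀ : ℤ) : Prop :=
  ∀ P : A, p • P = 0 →
    LinearIndependent ℚ (fun k : Fin ((p - 3) / 2) => g ((k + 2 : ℕ) • P) - g P) →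
    ∀ z ∈ Submodule.span ℚ
        {y : HK F | ∃ a b c : ℤ, y = ∑ u ∈ Finset.range p,
          hk (t ((u * a : ℤ) • P) ((u * b : ℤ) • P)) (g ((u * c : ℤ) • P))},
      Closed z → ∃ q : ℚ, z = q • trace (fun a b => hk (t a b) (g b - g a)) p P c₀

end Points

end Pool.Agent.MK4
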