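import Pool.Agent.Lib_helper2.K4.DefsH
import Pool.Agent.Lib_helper2.K4.DefsL

set_option autoImplicit false

/-!
# Closed elements of level `N`
-/

open scoped TensorProduct

namespace Pool.Agent.MK4

variable {F : Type*} [Field F] [DecidableEq F] {W : WeierstrassCurve.Affine F}

/-- The differences `g(kP) - g(P)`, `2 ≤ k ≤ N/2`, are linearly independent. -/
def Ind (g : To W → FT F) (N : ℕ) (P : To W) : Prop :=
  LinearIndependent ℚ (fun k : Fin (N / 2 - 1) => g ((k + 2 : ℕ) • P) - g P)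

/-- The span of the `t(aP,bP) ⊗ u`, `u` arbitrary. -/
noncomputable def SpT (t : To W → To W → B2 F) (P : To W) : Submodule ℚ (HK F) :=
  Submodule.span ℚ {y : HK F | ∃ (a b : ℤ) (u : FT F), y = hk (t (a • P) (b • P)) u}

/-- The span of the `t(aP,bP) ⊗ (g(cP) - g(dP))`, `cP, dP ≠ 0`. -/
noncomputable def SpD (g : To W → FT F) (t : To W → To W → B2 F) (P : To W) :
    Submodule ℚ (HK F) :=
  Submodule.span ℚ {y : HK F | ∃ a b c d : ℤ, c • P ≠ 0 ∧ d • P ≠ 0 ∧
    y = hk (t (a • P) (b • P)) (g (c • P) - g (d • P))}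

/-- The span of the traces `∑_v t(vaP,vbP) ⊗ (g(vcP) - g(vdP))`, `cP, dP ≠ 0`, `v` mod `N` prime
to `N`. -/
noncomputable def SpTr (g : To W → FT F) (t : To W → To W → B2 F) (N : ℕ) (P : To W) :
    Submodule ℚ (HK F) :=
  Submodule.span ℚ {y : HK F | ∃ a b c d : ℤ, c • P ≠ 0 ∧ d • P ≠ 0 ∧
    y = ∑ v ∈ (Finset.range N).filter (fun v => Nat.Coprime v N),
      hk (t ((v * a : ℤ) • P) ((v * b : ℤ) • P)) (g ((v * c : ℤ) • P) - g ((v * d : ℤ) • P))}

/-- Every closed element of the span of the `t(aP,bP) ⊗ u` is in the span of the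
`t(aP,bP) ⊗ (g(cP) - g(dP))`. -/
def Level0 (g : To W → FT F) (t : To W → To W → B2 F) (N : ℕ) : Prop :=
  ∀ P : To W, N • P = 0 → Ind g N P → ∀ z ∈ SpT t P, Closed z → z ∈ SpD g t P

/-- Every closed element of the span of the `t(aP,bP) ⊗ u` is a combination of the `ξ(aP,bP)`. -/
def Level1 (g : To W → FT F) (t : To W → To W → B2 F) (ξ : To W → To W → HK F) (N : ℕ) : Prop :=
  ∀ P : To W, N • P = 0 → Ind g N P → ∀ z ∈ SpT t P, Closed z →
    z ∈ Submodule.span ℚ {y : HK F | ∃ a b : ℤ, y = ξ (a • P) (b • P)}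

/-- Every closed element of the span of the traces `∑_v t(vaP,vbP) ⊗ (g(vcP) - g(vdP))` is a
combination of the traces `∑_v ξ(vaP,vbP)`. -/
def Level2 (g : To W → FT F) (t : To W → To W → B2 F) (ξ : To W → To W → HK F) (N : ℕ) : Prop :=
  ∀ P : To W, N • P = 0 → Ind g N P → ∀ z ∈ SpTr g t N P, Closed z →
    z ∈ Submodule.span ℚ {y : HK F | ∃ a b : ℤ, y = traceU ξ N P a b}

end Pool.Agent.MK4
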