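import Mathlib

set_option autoImplicit false
set_option linter.unusedSectionVars false

/-!
Finite part of K4M: consequences of the relations
`e b a = e a b`, `e a (-b) = - e a b`, `e a b + e b (-a-b) + e (-a-b) a = 0`
for groups of order 11, 17, 19.
-/

namespace Pool.Agent.K4Fin

variable {A H : Type*} [AddCommGroup A] [AddCommGroup H] [Module ℚ H]

/-- The relations of weight-two Manin symbols for one sign. -/
structure ManinSym (e : A → A → H) : Prop where
  sym : ∀ a b, e b a = e a b
  par : ∀ a b, e a (-b) = - e a b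
  tri : ∀ a b, e a b + e b (-a - b) + e (-a - b) a = 0

namespace ManinSym

variable {e : A → A → H}

lemma neg_left (h : ManinSym e) (a b : A) : e (-a) b = - e a b := by
  rw [h.sym b (-a), h.par, h.sym]

lemma add_rule (h : ManinSym e) (a b : A) : e a b = e a (a + b) + e b (a + b) := by
  have h1 := h.tri a b
  rw [h.sym a (-a - b), show (-a - b : A) = -(a + b) by abel, h.par, h.par] at h1
  rw [← sub_eq_zero, ← h1]
  abel

lemma eq_zero_of_neg {x : H} (h : x = -x) : x = 0 := by
  have h2 : (2 : ℚ) • x = 0 := by rw [two_smul]; nth_rw 1 [h]; abel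
  exact (smul_eq_zero.mp h2).resolve_left (by norm_num)

lemma zero_right (h : ManinSym e) (a : A) : e a 0 = 0 := by
  apply eq_zero_of_neg
  conv_lhs => rw [← neg_zero, h.par]

lemma zero_left (h : ManinSym e) (a : A) : e 0 a = 0 := by
  rw [h.sym a 0, h.zero_right]

lemma diag (h : ManinSym e) (a : A) : e a a = 0 := by
  have h1 := h.add_rule a 0
  rw [h.zero_right, add_zero, h.zero_left, add_zero] at h1
  exact h1.symm

lemma comp {B : Type*} [AddCommGroup B] (h : ManinSym e) (f : B →+ A) :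
    ManinSym (fun a b => e (f a) (f b)) where
  sym a b := h.sym _ _
  par a b := by simp only [map_neg]; exact h.par _ _
  tri a b := by
    simp only [map_sub, map_neg]
    exact h.tri _ _

end ManinSym

/-- The table of the coefficients for the group of order `11`
(rows and columns are the classes `1, …, 5` modulo sign). -/
def q11t : ℕ → ℕ → ℤ
  | 1, 3 => 1 | 3, 1 => 1
  | 1, 4 => 1 | 4, 1 => 1
  | 4, 5 => 1 | 5, 4 => 1
  | 2, 3 => -1 | 3, 2 => -1
  | 2, 5 => -1 | 5, 2 => -1
  | _, _ => 0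

/-- The sign of a class modulo `11`. -/
def sg11 (a : ZMod 11) : ℤ := if a.val ≤ 5 then 1 else -1

/-- The representative `0, …, 5` of a class modulo sign. -/
def ab11 (a : ZMod 11) : ℕ := min a.val (11 - a.val)

/-- The coefficient `q(a,b) ∈ {0, 1, -1}`. -/
def q11 (a b : ZMod 11) : ℤ := sg11 a * sg11 b * q11t (ab11 a) (ab11 b)

lemma q11_neg : ∀ a b : ZMod 11, a ≠ 0 → b ≠ 0 → q11 a (-b) = - q11 a b := by decide

lemma q11_sym : ∀ a b : ZMod 11, q11 b a = q11 a b := by decide


theorem eleven_aux {e : ZMod 11 → ZMod 11 → H} (h : ManinSym e) (a b : ZMod 11) :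
    e a b = q11 a b • e 1 3 := by
  have r (a b c : ZMod 11) (hc : a + b = c) : e a b = e a c + e b c := by
    rw [← hc]; exact h.add_rule a b
  have dbl (a c : ZMod 11) (hc : a + a = c) : e a c = 0 := by
    have h1 := h.add_rule a a
    rw [h.diag, hc] at h1
    exact ManinSym.eq_zero_of_neg (eq_neg_of_add_eq_zero_left h1.symm)
  have e12 : e 1 2 = 0 := dbl 1 2 (by decide)
  have e24 : e 2 4 = 0 := dbl 2 4 (by decide)
  have e35 : e 3 5 = 0 := by
    have h1 := dbl 3 (-5) (by decide)
    rwa [h.par, neg_eq_zero] at h1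
  have e34 : e 3 4 = 0 := by
    have h1 := dbl 4 (-3) (by decide)
    rwa [h.par, neg_eq_zero, h.sym] at h1
  have e15 : e 1 5 = 0 := by
    have h1 := dbl 5 (-1) (by decide)
    rwa [h.par, neg_eq_zero, h.sym] at h1
  have e23 : e 2 3 = - e 1 3 := by
    have h1 := r 1 2 3 (by decide)
    rw [e12] at h1
    exact eq_neg_of_add_eq_zero_right h1.symm
  have e14 : e 1 4 = e 1 3 := by
    have h1 := r 1 3 4 (by decide)
    rw [e34, add_zero] at h1
    exact h1.symm
  have e45 : e 4 5 = e 1 3 := by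
    have h1 := r 1 4 5 (by decide)
    rw [e15, zero_add, e14] at h1
    exact h1.symm
  have e25 : e 2 5 = - e 1 3 := by
    have h1 := r 2 3 5 (by decide)
    rw [e35, add_zero, e23] at h1
    exact h1.symm
  have e21 : e 2 1 = 0 := by rw [h.sym 1 2, e12]
  have e31 : e 3 1 = e 1 3 := h.sym 1 3
  have e32 : e 3 2 = - e 1 3 := by rw [h.sym 2 3, e23]
  have e41 : e 4 1 = e 1 3 := by rw [h.sym 1 4, e14]
  have e42 : e 4 2 = 0 := by rw [h.sym 2 4, e24]
  have e43 : e 4 3 = 0 := by rw [h.sym 3 4, e34]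
  have e51 : e 5 1 = 0 := by rw [h.sym 1 5, e15]
  have e52 : e 5 2 = - e 1 3 := by rw [h.sym 2 5, e25]
  have e53 : e 5 3 = 0 := by rw [h.sym 3 5, e35]
  have e54 : e 5 4 = e 1 3 := by rw [h.sym 4 5, e45]
  -- all representatives
  have key : ∀ i j : Fin 6, e ((i : ℕ) : ZMod 11) ((j : ℕ) : ZMod 11) =
      q11t (i : ℕ) (j : ℕ) • e 1 3 := by
    intro i j
    fin_cases i <;> fin_cases j <;>
      simp [q11t, h.zero_left, h.zero_right, h.diag, e12, e14, e15, e23, e24, e25, e34,
        e35, e45, e21, e31, e32, e41, e42, e43, e51, e52, e53, e54]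
  have rep : ∀ a : ZMod 11, (sg11 a = 1 ∧ a = ((ab11 a : ℕ) : ZMod 11)) ∨
      (sg11 a = -1 ∧ a = -((ab11 a : ℕ) : ZMod 11)) := by decide
  have lt : ∀ a : ZMod 11, ab11 a < 6 := by decide
  have k2 := key ⟨ab11 a, lt a⟩ ⟨ab11 b, lt b⟩
  simp only at k2
  unfold q11
  rcases rep a with ⟨sa, ha⟩ | ⟨sa, ha⟩ <;> rcases rep b with ⟨sb, hb⟩ | ⟨sb, hb⟩ <;>
    rw [sa, sb]
  · rw [one_mul, one_mul, ← k2, ← ha, ← hb]
  · rw [one_mul, neg_one_mul, neg_smul, ← k2, ← ha]
    nth_rw 1 [hb]
    rw [h.par]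
  · rw [mul_one, neg_one_mul, neg_smul, ← k2, ← hb]
    nth_rw 1 [ha]
    rw [h.neg_left]
  · rw [neg_mul_neg, one_mul, one_mul, ← k2]
    nth_rw 1 [ha, hb]
    rw [h.neg_left, h.par, neg_neg]

/-- The homomorphism `ZMod N → A` attached to a point killed by `N`. -/
lemma exists_hom (N : ℕ) (P : A) (hP : N • P = 0) :
    ∃ f : ZMod N →+ A, ∀ k : ℤ, f (k : ZMod N) = k • P := by
  have h0 : (zmultiplesHom A P) (N : ℤ) = 0 := by
    simpa using hP
  exact ⟨ZMod.lift N ⟨zmultiplesHom A P, h0⟩, fun k => by simp⟩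

/-- **Order 11**: all classes are integral multiples `0, ±` of one class. -/
theorem eleven {e : A → A → H} (h : ManinSym e) (P : A) (hP : 11 • P = 0) (a b : ℤ) :
    e (a • P) (b • P) = q11 (a : ZMod 11) (b : ZMod 11) • e P (3 • P) := by
  obtain ⟨f, hf⟩ := exists_hom 11 P hP
  have h1 := eleven_aux (h.comp f) (a : ZMod 11) (b : ZMod 11)
  have f1 : f 1 = P := by
    have := hf 1
    rw [one_smul] at this
    rw [← this]; norm_cast
  have f3 : f 3 = 3 • P := by
    have := hf 3
    rw [show (3 : ℕ) • P = (3 : ℤ) • P by norm_cast, ← this]; norm_cast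
  simpa only [hf, f1, f3] using h1

section trace

variable {p : ℕ} [hp : Fact p.Prime]

/-- The trace of the classes over the multiplications by `u` modulo `p`. -/
def Tr (e : ZMod p → ZMod p → H) (c : ZMod p) : H := ∑ u : ZMod p, e u (u * c)

variable {e : ZMod p → ZMod p → H}

lemma Tr_neg (h : ManinSym e) (c : ZMod p) : Tr e (-c) = - Tr e c := by
  unfold Tr
  rw [← Finset.sum_neg_distrib]
  exact Finset.sum_congr rfl fun u _ => by rw [mul_neg, h.par]

lemma Tr_zero (h : ManinSym e) : Tr e 0 = 0 := by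
  unfold Tr
  exact Finset.sum_eq_zero fun u _ => by rw [mul_zero, h.zero_right]

lemma Tr_one (h : ManinSym e) : Tr e 1 = 0 := by
  unfold Tr
  exact Finset.sum_eq_zero fun u _ => by rw [mul_one, h.diag]

lemma Tr_sum (c d : ZMod p) (hcd : c * d = 1) (x : ZMod p) :
    ∑ u : ZMod p, e (u * c) (u * x) = Tr e (d * x) := by
  have hc : c ≠ 0 := by rintro rfl; simp at hcd
  unfold Tr
  rw [← Equiv.sum_comp (Equiv.mulRight₀ c hc) (fun v => e v (v * (d * x)))]
  refine Finset.sum_congr rfl fun u _ => ?_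
  rw [show (Equiv.mulRight₀ c hc) u = u * c from rfl, show u * c * (d * x) = u * x * (c * d) by ring, hcd, mul_one]

lemma Tr_inv (h : ManinSym e) (c d : ZMod p) (hcd : c * d = 1) : Tr e d = Tr e c := by
  have h1 := Tr_sum (e := e) c d hcd 1
  rw [mul_one] at h1
  rw [← h1]
  unfold Tr
  refine Finset.sum_congr rfl fun u _ => ?_
  rw [mul_one, h.sym]

lemma Tr_rule (h : ManinSym e) (c d : ZMod p) (hcd : c * d = 1) :
    Tr e c = Tr e (1 + c) + Tr e (1 + d) := by
  have h1 := Tr_sum (e := e) c d hcd (1 + c)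
  rw [show d * (1 + c) = 1 + d by rw [mul_add, mul_one, mul_comm d c, hcd]; ring] at h1
  rw [← h1]
  unfold Tr
  rw [← Finset.sum_add_distrib]
  refine Finset.sum_congr rfl fun u _ => ?_
  rw [h.add_rule u (u * c)]
  rw [show u + u * c = u * (1 + c) by ring]

end trace

/-- The coefficients for the traces at `17`. -/
def q17 (c : ZMod 17) : ℤ :=
  if c ∈ ({3, 5, 6, 7} : Finset (ZMod 17)) then 1
  else if c ∈ ({10, 11, 12, 14} : Finset (ZMod 17)) then -1 else 0

/-- The coefficients for the traces at `19`. -/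
def q19 (c : ZMod 19) : ℤ :=
  if c ∈ ({4, 5} : Finset (ZMod 19)) then 1
  else if c ∈ ({14, 15} : Finset (ZMod 19)) then -1 else 0

instance : Fact (Nat.Prime 17) := ⟨by norm_num⟩
instance : Fact (Nat.Prime 19) := ⟨by norm_num⟩

theorem seventeen_aux {e : ZMod 17 → ZMod 17 → H} (h : ManinSym e) (c : ZMod 17) :
    Tr e c = q17 c • Tr e 3 := by
  have t0 : Tr e (0 : ZMod 17) = 0 := Tr_zero h
  have t1 : Tr e (1 : ZMod 17) = 0 := Tr_one h
  have t2 : Tr e (2 : ZMod 17) = 0 := by
    have h1 := Tr_rule h (1 : ZMod 17) 1 (by decide)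
    rw [t1, show (1 + 1 : ZMod 17) = 2 by decide] at h1
    exact ManinSym.eq_zero_of_neg (eq_neg_of_add_eq_zero_left h1.symm)
  have t9 : Tr e (9 : ZMod 17) = 0 := by rw [Tr_inv h 2 9 (by decide), t2]
  have t8 : Tr e (8 : ZMod 17) = 0 := by
    rw [show (8 : ZMod 17) = -9 by decide, Tr_neg h, t9, neg_zero]
  have t6 : Tr e (6 : ZMod 17) = Tr e 3 := Tr_inv h 3 6 (by decide)
  have t4 : Tr e (4 : ZMod 17) = 0 := by
    have h1 := Tr_inv h (4 : ZMod 17) (-4) (by decide)
    rw [Tr_neg h] at h1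
    exact ManinSym.eq_zero_of_neg h1.symm
  have t7 : Tr e (7 : ZMod 17) = Tr e 3 := by
    have h1 := Tr_rule h (3 : ZMod 17) 6 (by decide)
    rw [show (1 + 3 : ZMod 17) = 4 by decide, show (1 + 6 : ZMod 17) = 7 by decide, t4,
      zero_add] at h1
    exact h1.symm
  have t5 : Tr e (5 : ZMod 17) = Tr e 3 := by rw [Tr_inv h 7 5 (by decide), t7]
  have n (x y : ZMod 17) (hxy : x = -y) : Tr e x = - Tr e y := by rw [hxy, Tr_neg h]
  have t16 := n 16 1 (by decide)
  have t15 := n 15 2 (by decide)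
  have t14 := n 14 3 (by decide)
  have t13 := n 13 4 (by decide)
  have t12 := n 12 5 (by decide)
  have t11 := n 11 6 (by decide)
  have t10 := n 10 7 (by decide)
  have q (x : ZMod 17) (z : ℤ) (hx : q17 x = z) : q17 x = z := hx
  have key : ∀ i : Fin 17, Tr e ((i : ℕ) : ZMod 17) = q17 ((i : ℕ) : ZMod 17) • Tr e 3 := by
    intro i
    fin_cases i
    · simpa [show q17 0 = 0 by decide] using t0
    · simpa [show q17 1 = 0 by decide] using t1
    · simpa [show q17 2 = 0 by decide] using t2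
    · simp [show q17 3 = 1 by decide]
    · simpa [show q17 4 = 0 by decide] using t4
    · simpa [show q17 5 = 1 by decide] using t5
    · simpa [show q17 6 = 1 by decide] using t6
    · simpa [show q17 7 = 1 by decide] using t7
    · simpa [show q17 8 = 0 by decide] using t8
    · simpa [show q17 9 = 0 by decide] using t9
    · simpa [show q17 10 = -1 by decide, t7] using t10
    · simpa [show q17 11 = -1 by decide, t6] using t11
    · simpa [show q17 12 = -1 by decide, t5] using t12
    · simpa [show q17 13 = 0 by decide, t4] using t13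
    · simpa [show q17 14 = -1 by decide] using t14
    · simpa [show q17 15 = 0 by decide, t2] using t15
    · simpa [show q17 16 = 0 by decide, t1] using t16
  have h2 := key ⟨c.val, ZMod.val_lt c⟩
  simpa using h2

theorem nineteen_aux {e : ZMod 19 → ZMod 19 → H} (h : ManinSym e) (c : ZMod 19) :
    Tr e c = q19 c • Tr e 4 := by
  have t0 : Tr e (0 : ZMod 19) = 0 := Tr_zero h
  have t1 : Tr e (1 : ZMod 19) = 0 := Tr_one h
  have t2 : Tr e (2 : ZMod 19) = 0 := by
    have h1 := Tr_rule h (1 : ZMod 19) 1 (by decide)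
    rw [t1, show (1 + 1 : ZMod 19) = 2 by decide] at h1
    exact ManinSym.eq_zero_of_neg (eq_neg_of_add_eq_zero_left h1.symm)
  have n (x y : ZMod 19) (hxy : x = -y) : Tr e x = - Tr e y := by rw [hxy, Tr_neg h]
  have t10 : Tr e (10 : ZMod 19) = 0 := by rw [Tr_inv h 2 10 (by decide), t2]
  have t9 : Tr e (9 : ZMod 19) = 0 := by rw [n 9 10 (by decide), t10, neg_zero]
  have t5 : Tr e (5 : ZMod 19) = Tr e 4 := Tr_inv h 4 5 (by decide)
  have t3 : Tr e (3 : ZMod 19) = 0 := by
    have h1 := Tr_rule h (3 : ZMod 19) 13 (by decide)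
    rw [show (1 + 3 : ZMod 19) = 4 by decide, show (1 + 13 : ZMod 19) = -5 by decide,
      Tr_neg h, t5, add_neg_cancel] at h1
    exact h1
  have t13 : Tr e (13 : ZMod 19) = 0 := by rw [Tr_inv h 3 13 (by decide), t3]
  have t6 : Tr e (6 : ZMod 19) = 0 := by rw [n 6 13 (by decide), t13, neg_zero]
  have t11 : Tr e (11 : ZMod 19) = 0 := by
    have h1 := Tr_rule h (2 : ZMod 19) 10 (by decide)
    rw [show (1 + 2 : ZMod 19) = 3 by decide, show (1 + 10 : ZMod 19) = 11 by decide, t2, t3,
      zero_add] at h1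
    exact h1.symm
  have t8 : Tr e (8 : ZMod 19) = 0 := by rw [n 8 11 (by decide), t11, neg_zero]
  have t7 : Tr e (7 : ZMod 19) = 0 := by rw [Tr_inv h 11 7 (by decide), t11]
  have t18 := n 18 1 (by decide)
  have t17 := n 17 2 (by decide)
  have t16 := n 16 3 (by decide)
  have t15 := n 15 4 (by decide)
  have t14 := n 14 5 (by decide)
  have t12 := n 12 7 (by decide)
  have key : ∀ i : Fin 19, Tr e ((i : ℕ) : ZMod 19) = q19 ((i : ℕ) : ZMod 19) • Tr e 4 := by
    intro i
    fin_cases i
    · simpa [show q19 0 = 0 by decide] using t0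
    · simpa [show q19 1 = 0 by decide] using t1
    · simpa [show q19 2 = 0 by decide] using t2
    · simpa [show q19 3 = 0 by decide] using t3
    · simp [show q19 4 = 1 by decide]
    · simpa [show q19 5 = 1 by decide] using t5
    · simpa [show q19 6 = 0 by decide] using t6
    · simpa [show q19 7 = 0 by decide] using t7
    · simpa [show q19 8 = 0 by decide] using t8
    · simpa [show q19 9 = 0 by decide] using t9
    · simpa [show q19 10 = 0 by decide] using t10
    · simpa [show q19 11 = 0 by decide] using t11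
    · simpa [show q19 12 = 0 by decide, t7] using t12
    · simpa [show q19 13 = 0 by decide] using t13
    · simpa [show q19 14 = -1 by decide, t5] using t14
    · simpa [show q19 15 = -1 by decide] using t15
    · simpa [show q19 16 = 0 by decide, t3] using t16
    · simpa [show q19 17 = 0 by decide, t2] using t17
    · simpa [show q19 18 = 0 by decide, t1] using t18
  have h2 := key ⟨c.val, ZMod.val_lt c⟩
  simpa using h2

/-- The trace `∑_{u mod p} e(uP, ucP)`. -/
def TrP (e : A → A → H) (p : ℕ) (P : A) (c : ℤ) : H :=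
  ∑ u ∈ Finset.range p, e ((u : ℤ) • P) ((u * c : ℤ) • P)

lemma TrP_eq {e : A → A → H} {p : ℕ} [Fact p.Prime] {P : A} {f : ZMod p →+ A}
    (hf : ∀ k : ℤ, f (k : ZMod p) = k • P) (c : ℤ) :
    TrP e p P c = Tr (fun a b => e (f a) (f b)) (c : ZMod p) := by
  unfold TrP Tr
  symm
  refine Finset.sum_bij' (fun (u : ZMod p) _ => (u.val : ℕ)) (fun (u : ℕ) _ => (u : ZMod p))
    ?_ ?_ ?_ ?_ ?_
  · intro u _; exact Finset.mem_range.mpr (ZMod.val_lt u)
  · intro u _; exact Finset.mem_univ _
  · intro u _; simp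
  · intro u hu; exact ZMod.val_cast_of_lt (Finset.mem_range.mp hu)
  · intro u _
    have h1 := hf (u.val : ℤ)
    have h2 := hf (u.val * c : ℤ)
    push_cast at h1 h2
    rw [ZMod.natCast_zmod_val] at h1 h2
    show e (f u) (f (u * (c : ZMod p))) = _
    rw [h1, h2]

/-- **Order 17**: all traces are on one line. -/
theorem seventeen {e : A → A → H} (h : ManinSym e) (P : A) (hP : 17 • P = 0) (c : ℤ) :
    TrP e 17 P c = q17 (c : ZMod 17) • TrP e 17 P 3 := by
  obtain ⟨f, hf⟩ := exists_hom 17 P hP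
  have h1 := seventeen_aux (h.comp f) (c : ZMod 17)
  rw [TrP_eq hf, TrP_eq hf, h1]
  norm_cast

/-- **Order 19**: all traces are on one line. -/
theorem nineteen {e : A → A → H} (h : ManinSym e) (P : A) (hP : 19 • P = 0) (c : ℤ) :
    TrP e 19 P c = q19 (c : ZMod 19) • TrP e 19 P 4 := by
  obtain ⟨f, hf⟩ := exists_hom 19 P hP
  have h1 := nineteen_aux (h.comp f) (c : ZMod 19)
  rw [TrP_eq hf, TrP_eq hf, h1]
  norm_cast

end Pool.Agent.K4Fin
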