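import Pool.Agent.Lib_helper2.K4.DefsH
import Pool.Agent.Lib_helper60.K4H.L1
import Pool.Agent.Lib_helper76.K4H.L7

set_option autoImplicit false

/-!
Small lemmas for `HeckeK4`.
-/

namespace Pool.Agent.MK4

variable {F : Type*} [Field F] [CharZero F] [IsAlgClosed F] [DecidableEq F]
  {W : WeierstrassCurve.Affine F}

/-- the Siegel units of the library satisfy the relation of the `x`-differences -/
theorem siegel_gT (a b : To W) (h : a ≠ b) (h' : a ≠ -b) :
    lg (dx (a : W.Point) b) = pg (K4M.gT : To W → FT F) a b := by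
  rw [dx_eq]
  refine (K4M.gT_rel h h').trans ?_
  have e : ∀ x : K4M.FT F, (2 : ℚ) • x = 2 • x := fun x => ofNat_smul_eq_nsmul ℚ 2 x
  rw [e, e]
  rfl

/-- the isogeny relation -/
theorem isogRel_T (hW : W.Δ ≠ 0) {t : To W → To W → B2 F} (ht : Tri cr t) :
    IsogRel (fun a b : To W => hk (t a b) (K4M.gT b - K4M.gT a)) :=
  isogRel_T' (fun W' hW' _ h => siegel_unique (W := W') hW' h) hW ht

end Pool.Agent.MK4
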