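import Pool.Agent.Lib_helper86.K4.Par

set_option autoImplicit false
set_option linter.unusedSectionVars false

/-!
The single sum formula for `t`: `∑ₓ C(0, x, a - x, b + x) = - n t(a,b)`, and uniqueness of `t`.
-/

namespace Pool.Agent.K4Par

open Finset

variable {A B : Type*} [AddCommGroup A] [AddCommGroup B] [Module ℚ B] [Fintype A]
  {t : A → A → B}

lemma sum_refl (ht : IsT t) (s : A) : ∑ y, t y (s - (y + y)) = 0 := by
  apply eq_zero_of_neg
  conv_lhs => rw [← Equiv.sum_comp (Equiv.subLeft s) (fun y => t y (s - (y + y)))]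
  rw [← Finset.sum_neg_distrib]
  refine Finset.sum_congr rfl fun y _ => ?_
  simp only [Equiv.subLeft_apply]
  have h1 := ht.rot (y - s) (s - (y + y))
  have h2 := ht.swap y (s - (y + y))
  rw [show -(y - s) - (s - (y + y)) = y by abel] at h1
  rw [← ht.even, show -(s - y) = y - s by abel,
    show -(s - (s - y + (s - y))) = s - (y + y) by abel, ← h1, h2]

lemma sum_th0 (ht : IsT t) (s : A) : ∑ y, th t 0 y (s - y) = 0 := by
  have e : ∀ y, th t 0 y (s - y) =
      (2 : ℚ) • t y (s - (y + y)) + (t (-y) s + t y (-s)) := by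
    intro y
    unfold th
    have h1 : t (0 - y) (y - (s - y)) = t y (s - (y + y)) := by
      rw [← ht.even]; congr 1 <;> abel
    have h2 : t (-0 - y) (y - (s - y)) = t y (s - (y + y)) := by
      rw [← ht.even]; congr 1 <;> abel
    rw [h1, h2, show y + (s - y) = s by abel, show (0 : A) - y = -y by abel,
      show (0 : A) + y = y by abel, show -y - (s - y) = -s by abel, two_smul]
    abel
  simp only [e, Finset.sum_add_distrib, ← Finset.smul_sum, sum_refl ht, smul_zero, zero_add]
  have h1 : ∑ y, t (-y) s = 0 := by
    rw [← sum_t' ht s]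
    exact Equiv.sum_comp (Equiv.neg A) (fun e => t e s)
  rw [h1, sum_t' ht, zero_add]

/-- **The single sum formula.** -/
theorem sum_single (ht : IsT t) (h2 : Function.Injective fun a : A => a + a) (a b : A) :
    ∑ x, CR t 0 x (a - x) (b + x) = - ((Fintype.card A : ℚ) • t a b) := by
  have hbij : Function.Bijective fun a : A => a + a := Finite.injective_iff_bijective.mp h2
  have f2 : ∑ x, th t 0 (a - x) (b + x) = 0 := by
    rw [← sum_th0 ht (a + b), ← Equiv.sum_comp (Equiv.subLeft a)]
    refine Finset.sum_congr rfl fun x _ => ?_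
    simp only [Equiv.subLeft_apply]
    congr 1 <;> abel
  have f3 : ∑ x, th t 0 x (b + x) = 0 := by
    have h := sum_th0 ht (-b)
    rw [← h]
    refine Finset.sum_congr rfl fun x _ => ?_
    rw [← th_even3 ht 0 x (b + x)]
    congr 1; abel
  have f4 : ∑ x, th t 0 x (a - x) = 0 := sum_th0 ht a
  have f1 : ∑ x, th t x (a - x) (b + x) = - ((Fintype.card A : ℚ) • t a b) := by
    have e : ∀ x, th t x (a - x) (b + x) =
        t b ((x + x) - a) + t ((x + x) - a) (a + b) + (- t a b) + t (-a) (a - b - (x + x)) := by
      intro x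
      unfold th
      have h1 := ht.rot b ((x + x) - a)
      have h3 : t (x + (a - x)) (-(a - x) - (b + x)) = - t a b := by
        have := ht.swap13 a b
        rw [show x + (a - x) = a by abel, show -(a - x) - (b + x) = -a - b by abel]
        exact this
      rw [h3, show x - (a - x) = x + x - a by abel,
        show a - x - (b + x) = -b - (x + x - a) by abel, h1,
        show a - x + (b + x) = a + b by abel, show -x - (a - x) = -a by abel,
        show -b - (x + x - a) = a - b - (x + x) by abel]
    simp only [e, Finset.sum_add_distrib]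
    have s1 : ∑ x : A, t b ((x + x) - a) = 0 := by
      rw [← sum_t ht b]
      exact (hbij.comp (Equiv.refl A).bijective).sum_comp (fun y => t b (y - a)) |>.trans
        (Equiv.sum_comp (Equiv.subRight a) (fun e => t b e))
    have s2 : ∑ x : A, t ((x + x) - a) (a + b) = 0 := by
      rw [← sum_t' ht (a + b)]
      exact hbij.sum_comp (fun y => t (y - a) (a + b)) |>.trans
        (Equiv.sum_comp (Equiv.subRight a) (fun e => t e (a + b)))
    have s4 : ∑ x : A, t (-a) (a - b - (x + x)) = 0 := by
      rw [← sum_t ht (-a)]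
      exact hbij.sum_comp (fun y => t (-a) (a - b - y)) |>.trans
        (Equiv.sum_comp (Equiv.subLeft (a - b)) (fun e => t (-a) e))
    rw [s1, s2, s4, Finset.sum_const, Finset.card_univ, ← Nat.cast_smul_eq_nsmul ℚ, smul_neg]
    abel
  unfold CR
  rw [Finset.sum_sub_distrib, Finset.sum_add_distrib, Finset.sum_sub_distrib, f1, f2, f3, f4]
  abel

/-- `t` is determined by the symbols `C = CR t`. -/
theorem single_formula (ht : IsT t) (h2 : Function.Injective fun a : A => a + a)
    {C : A → A → A → A → B} (hC : ∀ a b c d, C a b c d = CR t a b c d) (a b : A) :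
    t a b = - ((Fintype.card A : ℚ)⁻¹ • ∑ x, C 0 x (a - x) (b + x)) := by
  have hn : (Fintype.card A : ℚ) ≠ 0 := by
    have : Nonempty A := ⟨0⟩
    exact_mod_cast Fintype.card_ne_zero
  simp only [hC]
  rw [sum_single ht h2, smul_neg, neg_neg, smul_smul, inv_mul_cancel₀ hn, one_smul]

end Pool.Agent.K4Par
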